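
import Pool.Agent.MF.SlotDefs
import Pool.Agent.helper35.MF.Len
import Pool.Agent.helper71.MF7b

set_option autoImplicit false

/-!
# MP_141f81, Section 9: the group of a sub-space of roles, abstract part

`T` relators (short words of letters of `P`), `P` letters.  If words of three and five letters fall in few classes and
`sy p + sy q` is a sum of relators only for few `q`, then a word of `l` letters which is a sum of relators is a sum of
boundedly many relators (`inj_abs`), and the group generated by the letters modulo the relators has at most `K n`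
elements (`card_abs`).
-/

namespace Pool.Agent.helper80.MF

open Finset
open Pool.Agent.helper35.MF
open Pool.Agent.helper71.MF7b (exists_pair_ball cF cm)

section

variable {Y : Type} {T : Set (Y →₀ ZMod 2)}

theorem ball_closure {r : ℕ} {g : Y →₀ ZMod 2} (hg : g ∈ Ball T r) : g ∈ AddSubgroup.closure T := by
  obtain ⟨l, -, h2, rfl⟩ := hg
  exact AddSubgroup.list_sum_mem _ fun x hx => AddSubgroup.subset_closure (h2 x hx)

theorem closure_ball {g : Y →₀ ZMod 2} (hg : g ∈ AddSubgroup.closure T) : ∃ b, g ∈ Ball T b := by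
  induction hg using AddSubgroup.closure_induction with
  | mem x hx => exact ⟨1, Ball.one hx⟩
  | zero => exact ⟨0, Ball.zero _ _⟩
  | add x y _ _ hx hy =>
    obtain ⟨b, hb⟩ := hx
    obtain ⟨b', hb'⟩ := hy
    exact ⟨b + b', ball_add hb hb'⟩
  | neg x _ hx =>
    obtain ⟨b, hb⟩ := hx
    exact ⟨b, by rwa [neg_eq_of_add_eq_zero_left (two_eq x)]⟩

theorem add_cancel_mid (a b : Y →₀ ZMod 2) : a + (a + b) = b := by
  rw [← add_assoc, two_eq, zero_add]

/-- first exit of a chain from a ball -/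
theorem chain_exit {D : Set (Y →₀ ZMod 2)} {R k : ℕ} {u v : Y →₀ ZMod 2} (h : Rc (Stp T D R) k u v)
    (hut : u ∈ AddSubgroup.closure T) (t : ℕ) (hu : u ∈ Ball T t) (hv : v ∉ Ball T t) :
    ∃ g ∈ D, g ∈ AddSubgroup.closure T ∧ g ∉ Ball T t ∧ g ∈ Ball T (t + R) := by
  induction k generalizing u with
  | zero =>
    obtain rfl : u = v := h
    exact absurd hu hv
  | succ k ih =>
    obtain ⟨c, h1, h2⟩ := h
    rcases h1 with rfl | h1 | h1
    · exact ih h2 hut hu
    · have h3 : c = u + (u + c) := (add_cancel_mid u c).symm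
      have h4 : c ∈ Ball T (t + R) := by rw [h3]; exact ball_add hu h1.2.2
      by_cases hc : c ∈ Ball T t
      · exact ih h2 (ball_closure h4) hc
      · exact ⟨c, h1.2.1, ball_closure h4, hc, h4⟩
    · have h3 : c = u + (c + u) := by rw [add_comm c u, add_cancel_mid]
      have h4 : c ∈ Ball T (t + R) := by rw [h3]; exact ball_add hu h1.2.2
      by_cases hc : c ∈ Ball T t
      · exact ih h2 (ball_closure h4) hc
      · exact ⟨c, h1.1, ball_closure h4, hc, h4⟩

/-- chain connected and boundedly many classes: bounded -/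
theorem bounded_of_chain {D : Set (Y →₀ ZMod 2)} {R k1 m0 : ℕ}
    (hchain : ∀ e ∈ D, e ∈ AddSubgroup.closure T → ∃ k, Rc (Stp T D R) k 0 e)
    (count : ∀ E : Finset (Y →₀ ZMod 2), (∀ e ∈ E, e ∈ D ∧ e ∈ AddSubgroup.closure T) →
      (∀ e ∈ E, ∀ e' ∈ E, e ≠ e' → e + e' ∉ Ball T k1) → E.card ≤ m0) :
    ∀ e ∈ D, e ∈ AddSubgroup.closure T → e ∈ Ball T (m0 * (k1 + R)) := by
  classical
  intro e he hec
  by_contra hcon
  obtain ⟨k, hk⟩ := hchain e he hec
  have h1 : ∀ j : Fin (m0 + 1), ∃ g, g ∈ D ∧ g ∈ AddSubgroup.closure T ∧ g ∉ Ball T (j * (k1 + R)) ∧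
      g ∈ Ball T (j * (k1 + R) + R) := by
    intro j
    obtain ⟨g, h2, h3, h4, h5⟩ := chain_exit hk (AddSubgroup.zero_mem _) (j * (k1 + R)) (Ball.zero _ _)
      (fun h2 => hcon (Ball.mono (Nat.mul_le_mul_right _ (by omega)) h2))
    exact ⟨g, h2, h3, h4, h5⟩
  choose g hg1 hg2 hg3 hg4 using h1
  have hsep : ∀ i j : Fin (m0 + 1), i < j → g i + g j ∉ Ball T k1 := by
    intro i j hij h2
    apply hg3 j
    have h3 : g j = g i + (g i + g j) := (add_cancel_mid _ _).symm
    rw [h3]
    refine Ball.mono ?_ (ball_add (hg4 i) h2)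
    have h4 : (i : ℕ) + 1 ≤ j := hij
    have h5 := Nat.mul_le_mul_right (k1 + R) h4
    have h6 : ((i : ℕ) + 1) * (k1 + R) = i * (k1 + R) + (k1 + R) := by ring
    omega
  have hsep' : ∀ i j : Fin (m0 + 1), i ≠ j → g i + g j ∉ Ball T k1 := by
    intro i j hij
    rcases lt_or_gt_of_ne hij with h | h
    · exact hsep i j h
    · rw [add_comm]; exact hsep j i h
  have hinj : Function.Injective g := by
    intro i j hij
    by_contra hne
    apply hsep' i j hne
    rw [hij, two_eq]
    exact Ball.zero _ _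
  have h2 := count (univ.image g) (by
    intro x hx
    obtain ⟨i, -, rfl⟩ := mem_image.mp hx
    exact ⟨hg1 i, hg2 i⟩) (by
    intro x hx y hy hxy
    obtain ⟨i, -, rfl⟩ := mem_image.mp hx
    obtain ⟨j, -, rfl⟩ := mem_image.mp hy
    exact hsep' i j fun h => hxy (by rw [h]))
  rw [card_image_of_injective _ hinj, card_univ, Fintype.card_fin] at h2
  omega

/-- the data of a slot with exact fibres -/
structure Slot0 (T : Set (Y →₀ ZMod 2)) (P : Finset Y) (n a b3 b5 K3 K5 Kd C0 l1 : ℕ) : Prop where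
  hn : 0 < n
  hP : n ≤ P.card * a
  hPd : P.card ≤ Kd * n
  line : ∀ t ∈ T, ∃ l : List Y, l.length ≤ l1 ∧ (∀ x ∈ l, x ∈ P) ∧ t = wd l
  cons : ∀ p ∈ P, ∀ Q : Finset Y, Q ⊆ P → (∀ q ∈ Q, sy p + sy q ∈ AddSubgroup.closure T) → Q.card ≤ C0
  cov3 : ∀ W : Finset (Y →₀ ZMod 2),
    (∀ w ∈ W, ∃ l : List Y, l.length = 3 ∧ (∀ x ∈ l, x ∈ P) ∧ wd l = w) →
    (∀ w ∈ W, ∀ w' ∈ W, w ≠ w' → w + w' ∉ Ball T b3) → W.card ≤ K3 * n
  cov5 : ∀ W : Finset (Y →₀ ZMod 2),
    (∀ w ∈ W, ∃ l : List Y, l.length = 5 ∧ (∀ x ∈ l, x ∈ P) ∧ wd l = w) →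
    (∀ w ∈ W, ∀ w' ∈ W, w ≠ w' → w + w' ∉ Ball T b5) → W.card ≤ K5 * n

/-- the number of classes in the coarse set -/
def m1 (a b3 b5 K3 K5 C0 : ℕ) : ℕ := cm a b3 b5 K3 K5 (fun _ => C0) 0

/-- the bound of the words which are sums of relators -/
def bI (a b3 b5 K3 K5 C0 l1 l : ℕ) : ℕ :=
  l * (b3 + b5) + (2 * m1 a b3 b5 K3 K5 C0) *
    (4 * b3 + 2 * (b3 + b5) + ((l1 + (3 + 4 * cF a b5 K5 (fun _ => C0)) + 6) * (b3 + b5) + 1))

theorem inj_abs {P : Finset Y} {n a b3 b5 K3 K5 Kd C0 l1 : ℕ} (h : Slot0 T P n a b3 b5 K3 K5 Kd C0 l1)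
    (l : List Y) (hl : ∀ x ∈ l, x ∈ P) (hT : wd l ∈ AddSubgroup.closure T) :
    wd l ∈ Ball T (bI a b3 b5 K3 K5 C0 l1 l.length) := by
  classical
  have hPne : P.Nonempty := by
    rw [nonempty_iff_ne_empty]
    rintro rfl
    have := h.hP
    have := h.hn
    simp at *
    omega
  obtain ⟨x0, hx0⟩ := hPne
  obtain ⟨Ds, hD0, hDw, hDP, hpair⟩ := exists_pair_ball (T := T) (T' := T) subset_rfl P {0} n a b3 b5 K3 K5 Kd
    (fun _ => C0) h.hn h.hP
    (fun b p hp Q hQ hq => h.cons p hp Q hQ fun q hqQ => ball_closure (hq q hqQ)) h.cov3 h.cov5 (by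
      intro W hW _
      refine le_trans ?_ h.hPd
      have h1 : W ⊆ P.image sy := by
        intro w hw
        obtain ⟨f, hf, p, hp, rfl⟩ := hW w hw
        rw [Set.mem_singleton_iff.mp hf, zero_add]
        exact mem_image_of_mem _ hp
      exact (card_le_card h1).trans card_image_le)
  set κ := b3 + b5 with hκ
  set cf := cF a b5 K5 (fun _ => C0) with hcf
  set D' : Set (Y →₀ ZMod 2) := Ds ∪ {g | ∃ d ∈ Ds, g = d + sy x0} with hD'
  have hsy : ∀ x ∈ P, sy x ∈ D' := by
    intro x hx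
    refine Or.inr ⟨sy x + sy x0, hDP x hx x0 hx0, ?_⟩
    rw [add_assoc, two_eq, add_zero]
  have hadd := hpair.Dadd
  have hcoarse : CoarseF T D' (∅ : Set (Y →₀ ZMod 2)) κ (l1 + (3 + 4 * cf)) 0 := by
    refine ⟨?_, Or.inl hD0, ?_, ?_, ?_, ?_⟩
    · intro t ht
      obtain ⟨l, h1, h2, h3⟩ := h.line t ht
      exact ⟨l, by omega, fun x hx => hsy x (h2 x hx), h3⟩
    · rintro u (hu | ⟨u, hu, rfl⟩) v (hv | ⟨v, hv, rfl⟩)
      · obtain ⟨d, hd, h1⟩ := hadd u hu v hv
        exact ⟨d, Or.inl hd, h1⟩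
      · obtain ⟨d, hd, h1⟩ := hadd u hu v hv
        refine ⟨d + sy x0, Or.inr ⟨d, hd, rfl⟩, ?_⟩
        have h2 : u + (v + sy x0) + (d + sy x0) = u + v + d := by
          have := two_eq (sy x0)
          calc u + (v + sy x0) + (d + sy x0) = u + v + d + (sy x0 + sy x0) := by abel
            _ = u + v + d := by rw [this, add_zero]
        rwa [h2]
      · obtain ⟨d, hd, h1⟩ := hadd u hu v hv
        refine ⟨d + sy x0, Or.inr ⟨d, hd, rfl⟩, ?_⟩
        have h2 : u + sy x0 + v + (d + sy x0) = u + v + d := by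
          have := two_eq (sy x0)
          calc u + sy x0 + v + (d + sy x0) = u + v + d + (sy x0 + sy x0) := by abel
            _ = u + v + d := by rw [this, add_zero]
        rwa [h2]
      · obtain ⟨d, hd, h1⟩ := hadd u hu v hv
        refine ⟨d, Or.inl hd, ?_⟩
        have h2 : u + sy x0 + (v + sy x0) + d = u + v + d := by
          have := two_eq (sy x0)
          calc u + sy x0 + (v + sy x0) + d = u + v + d + (sy x0 + sy x0) := by abel
            _ = u + v + d := by rw [this, add_zero]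
        rwa [h2]
    · intro f hf; exact absurd hf (Set.notMem_empty f)
    · intro u _ f hf; exact absurd hf (Set.notMem_empty f)
    · rintro u (hu | ⟨u, hu, rfl⟩)
      · obtain ⟨l, h1, -, h2, h3⟩ := hDw u hu
        refine ⟨l, by omega, fun x hx => hsy x (h2 x hx), ?_, [], by simp, by simp, ?_⟩
        · rw [h3]; exact Or.inl hu
        · rw [h3, List.sum_nil, add_zero]
      · obtain ⟨l, h1, -, h2, h3⟩ := hDw u hu
        have h4 : wd (x0 :: l) = u + sy x0 := by
          rw [← h3, wd, List.map_cons, List.sum_cons, add_comm]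
        refine ⟨x0 :: l, by rw [List.length_cons]; omega, ?_, ?_, [], by simp, by simp, ?_⟩
        · intro x hx
          rcases List.mem_cons.mp hx with rfl | hx
          · exact hsy _ hx0
          · exact hsy x (h2 x hx)
        · rw [h4]; exact Or.inr ⟨u, hu, rfl⟩
        · rw [h4, List.sum_nil, add_zero]
  -- the count on `Ds`
  have hcount : ∀ E : Finset (Y →₀ ZMod 2), (∀ e ∈ E, e ∈ Ds ∧ e ∈ AddSubgroup.closure T) →
      (∀ e ∈ E, ∀ e' ∈ E, e ≠ e' → e + e' ∉ Ball T (4 * b3)) → E.card ≤ m1 a b3 b5 K3 K5 C0 := by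
    intro E hE hsep
    have h1 : ∃ s, ∀ e ∈ E, e ∈ Ball T s := by
      have h2 : ∀ e ∈ E, ∃ b, e ∈ Ball T b := fun e he => closure_ball (hE e he).2
      choose! b hb using h2
      exact ⟨E.sup b, fun e he => Ball.mono (Finset.le_sup he) (hb e he)⟩
    obtain ⟨s, hs⟩ := h1
    exact hpair.count s E (fun e he => ⟨(hE e he).1, hs e he⟩) hsep
  -- the count on `D'`
  have hcount' : ∀ E : Finset (Y →₀ ZMod 2), (∀ e ∈ E, e ∈ D' ∧ e ∈ AddSubgroup.closure T) →
      (∀ e ∈ E, ∀ e' ∈ E, e ≠ e' → e + e' ∉ Ball T (4 * b3 + 2 * κ)) →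
      E.card ≤ 2 * m1 a b3 b5 K3 K5 C0 := by
    intro E hE hsep
    have h1 : (E.filter fun e => e ∈ Ds).card ≤ m1 a b3 b5 K3 K5 C0 := by
      refine hcount _ (fun e he => ?_) (fun e he e' he' hne hb => ?_)
      · rw [mem_filter] at he
        exact ⟨he.2, (hE e he.1).2⟩
      · rw [mem_filter] at he he'
        exact hsep e he.1 e' he'.1 hne (Ball.mono (by omega) hb)
    have h2 : (E.filter fun e => ¬ e ∈ Ds).card ≤ m1 a b3 b5 K3 K5 C0 := by
      rcases (E.filter fun e => ¬ e ∈ Ds).eq_empty_or_nonempty with h0 | ⟨e1, he1⟩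
      · rw [h0, card_empty]; exact Nat.zero_le _
      have hmem : ∀ e ∈ E.filter fun e => ¬ e ∈ Ds, ∃ d ∈ Ds, e = d + sy x0 := by
        intro e he
        rw [mem_filter] at he
        exact (hE e he.1).1.resolve_left he.2
      obtain ⟨d1, hd1, he1d⟩ := hmem e1 he1
      have hch : ∀ e ∈ E.filter fun e => ¬ e ∈ Ds, ∃ d' ∈ Ds, e + e1 + d' ∈ Ball T κ := by
        intro e he
        obtain ⟨d, hd, hed⟩ := hmem e he
        obtain ⟨d', hd', h3⟩ := hadd d hd d1 hd1
        refine ⟨d', hd', ?_⟩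
        have h4 : e + e1 + d' = d + d1 + d' := by
          have := two_eq (sy x0)
          calc e + e1 + d' = d + d1 + d' + (sy x0 + sy x0) := by rw [hed, he1d]; abel
            _ = d + d1 + d' := by rw [this, add_zero]
        rwa [h4]
      choose! f hf1 hf2 using hch
      have hkey : ∀ e ∈ E.filter fun e => ¬ e ∈ Ds, ∀ e' ∈ E.filter fun e => ¬ e ∈ Ds, e ≠ e' →
          f e + f e' ∉ Ball T (4 * b3) := by
        intro e he e' he' hne hb
        refine hsep e (mem_filter.mp he).1 e' (mem_filter.mp he').1 hne ?_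
        have h3 := ball_add hb (ball_add (hf2 e he) (hf2 e' he'))
        have h4 : f e + f e' + (e + e1 + f e + (e' + e1 + f e')) = e + e' := by
          have t1 := two_eq (f e)
          have t2 := two_eq (f e')
          have t3 := two_eq e1
          calc f e + f e' + (e + e1 + f e + (e' + e1 + f e'))
              = e + e' + (f e + f e) + (f e' + f e') + (e1 + e1) := by abel
            _ = e + e' := by rw [t1, t2, t3]; simp
        rw [h4] at h3
        exact Ball.mono (by omega) h3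
      have hinj : Set.InjOn f (E.filter fun e => ¬ e ∈ Ds : Finset (Y →₀ ZMod 2)) := by
        intro e he e' he' hee
        by_contra hne
        apply hkey e he e' he' hne
        rw [hee, two_eq]
        exact Ball.zero _ _
      rw [← card_image_of_injOn hinj]
      refine hcount _ (fun x hx => ?_) (fun x hx y hy hxy => ?_)
      · obtain ⟨e, he, rfl⟩ := mem_image.mp hx
        refine ⟨hf1 e he, ?_⟩
        have h3 := ball_closure (hf2 e he)
        have h4 := (hE e (mem_filter.mp he).1).2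
        have h5 := (hE e1 (mem_filter.mp he1).1).2
        have h6 : f e = e + e1 + (e + e1 + f e) := by
          rw [add_cancel_mid]
        rw [h6]
        exact AddSubgroup.add_mem _ (AddSubgroup.add_mem _ h4 h5) h3
      · obtain ⟨e, he, rfl⟩ := mem_image.mp hx
        obtain ⟨e', he', rfl⟩ := mem_image.mp hy
        exact hkey e he e' he' fun hee => hxy (by rw [hee])
    have h3 := card_filter_add_card_filter_not (s := E) (fun e => e ∈ Ds)
    omega
  have hbound := bounded_of_chain (D := D') (R := (l1 + (3 + 4 * cf) + 6) * κ + 1)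
    (k1 := 4 * b3 + 2 * κ) (m0 := 2 * m1 a b3 b5 K3 K5 C0) (fun e he hec => by
      refine hcoarse.chain (Or.inl hD0) he ?_
      rwa [zero_add]) hcount'
  have hL : ∀ x ∈ l, sy x ∈ D' := fun x hx => hsy x (hl x hx)
  have h1 := hcoarse.ev_ball l hL
  have h2 : (hcoarse.ev l : Y →₀ ZMod 2) ∈ AddSubgroup.closure T := by
    have h3 : (hcoarse.ev l : Y →₀ ZMod 2) = wd l + (wd l + hcoarse.ev l) := (add_cancel_mid _ _).symm
    rw [h3]
    exact AddSubgroup.add_mem _ hT (ball_closure h1)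
  have h3 := hbound _ (hcoarse.ev l).2 h2
  have h4 := ball_add h1 h3
  have h5 : wd l + (hcoarse.ev l : Y →₀ ZMod 2) + hcoarse.ev l = wd l := by
    rw [add_assoc, two_eq, add_zero]
  rw [h5] at h4
  exact h4

end

end Pool.Agent.helper80.MF
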